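import Pool.Agent.MBX.Stmts

/-! Row SCL of the table mbx (MP_8cfbae_mp): closure properties of the wave functions. -/

set_option autoImplicit false

open MeasureTheory Complex ProbabilityTheory

namespace Pool.Agent.MBX.H27

open Pool.Agent.MBX
open Pool.Agent.Helper49_Pauli

section

variable {ι : Type} [Fintype ι] [DecidableEq ι]

theorem cs_mul {g f : X3 → ℂ} (hg : ContDiff ℝ (⊤ : ℕ∞) g) (hf : CS f) :
    CS (fun x => g x * f x) :=
  ⟨hg.mul hf.1, hf.2.mul_left⟩

theorem cs_conj {f : X3 → ℂ} (hf : CS f) : CS (fun x => (starRingEnd ℂ) (f x)) :=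
  ⟨Complex.conjCLE.contDiff.comp hf.1, hf.2.comp_left (map_zero _)⟩

theorem gen_mem (P : MvPolynomial ι ℂ) {f : X3 → ℂ} (hf : CS f) : Gen P f ∈ SS ι :=
  Submodule.subset_span ⟨P, f, hf, rfl⟩

theorem ss_ind {p : ((ι → ℝ) → X3 → ℂ) → Prop}
    (hgen : ∀ (P : MvPolynomial ι ℂ) (f : X3 → ℂ), CS f → p (Gen P f)) (h0 : p 0)
    (hadd : ∀ q r, p q → p r → p (q + r)) (hsmul : ∀ (c : ℂ) q, p q → p (c • q)) :
    ∀ q ∈ SS ι, p q := by
  intro q hq
  unfold SS at hq
  induction hq using Submodule.span_induction with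
  | mem x hx =>
    obtain ⟨P, f, hf, rfl⟩ := hx
    exact hgen P f hf
  | zero => exact h0
  | add x y _ _ hx hy => exact hadd x y hx hy
  | smul c x _ hx => exact hsmul c x hx

theorem mul_gen (P : MvPolynomial ι ℂ) {f : X3 → ℂ} (hf : CS f) :
    ∀ r ∈ SS ι, (fun y x => Gen P f y x * r y x) ∈ SS ι := by
  refine ss_ind ?_ ?_ ?_ ?_
  · intro Q g hg
    have e : (fun (y : ι → ℝ) x => Gen P f y x * Gen Q g y x) =
        Gen (P * Q) (fun x => f x * g x) := by
      funext y x
      simp only [Gen, map_mul]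
      ring
    rw [e]
    exact gen_mem _ (cs_mul hf.1 hg)
  · have e : (fun (y : ι → ℝ) x => Gen P f y x * (0 : (ι → ℝ) → X3 → ℂ) y x) = 0 := by
      funext y x
      simp
    rw [e]
    exact Submodule.zero_mem _
  · intro q r hq hr
    have e : (fun (y : ι → ℝ) x => Gen P f y x * (q + r) y x) =
        (fun y x => Gen P f y x * q y x) + (fun y x => Gen P f y x * r y x) := by
      funext y x
      simp only [Pi.add_apply]
      ring
    rw [e]
    exact Submodule.add_mem _ hq hr
  · intro c q hq
    have e : (fun (y : ι → ℝ) x => Gen P f y x * (c • q) y x) =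
        c • (fun y x => Gen P f y x * q y x) := by
      funext y x
      simp only [Pi.smul_apply, smul_eq_mul]
      ring
    rw [e]
    exact Submodule.smul_mem _ c hq

theorem mul_mem : ∀ q ∈ SS ι, ∀ r ∈ SS ι, (fun y x => q y x * r y x) ∈ SS ι := by
  intro q hq r hr
  revert q
  refine ss_ind ?_ ?_ ?_ ?_
  · intro P f hf
    exact mul_gen P hf r hr
  · have e : (fun (y : ι → ℝ) x => (0 : (ι → ℝ) → X3 → ℂ) y x * r y x) = 0 := by
      funext y x
      simp
    rw [e]
    exact Submodule.zero_mem _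
  · intro q s hq hs
    have e : (fun (y : ι → ℝ) x => (q + s) y x * r y x) =
        (fun y x => q y x * r y x) + (fun y x => s y x * r y x) := by
      funext y x
      simp only [Pi.add_apply]
      ring
    rw [e]
    exact Submodule.add_mem _ hq hs
  · intro c q hq
    have e : (fun (y : ι → ℝ) x => (c • q) y x * r y x) =
        c • (fun y x => q y x * r y x) := by
      funext y x
      simp only [Pi.smul_apply, smul_eq_mul]
      ring
    rw [e]
    exact Submodule.smul_mem _ c hq

theorem eval_map_conj (P : MvPolynomial ι ℂ) (y : ι → ℝ) :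
    MvPolynomial.eval (fun i => ((y i : ℝ) : ℂ)) (MvPolynomial.map (starRingEnd ℂ) P) =
      (starRingEnd ℂ) (MvPolynomial.eval (fun i => ((y i : ℝ) : ℂ)) P) := by
  induction P using MvPolynomial.induction_on with
  | C a => simp
  | add p q hp hq => simp only [map_add, hp, hq]
  | mul_X p i hp => simp only [map_mul, hp, MvPolynomial.map_X, MvPolynomial.eval_X,
      Complex.conj_ofReal]

theorem conj_mem : ∀ q ∈ SS ι, (fun y x => (starRingEnd ℂ) (q y x)) ∈ SS ι := by
  refine ss_ind ?_ ?_ ?_ ?_
  · intro P f hf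
    have e : (fun (y : ι → ℝ) x => (starRingEnd ℂ) (Gen P f y x)) =
        Gen (MvPolynomial.map (starRingEnd ℂ) P) (fun x => (starRingEnd ℂ) (f x)) := by
      funext y x
      simp only [Gen, map_mul, eval_map_conj]
    rw [e]
    exact gen_mem _ (cs_conj hf)
  · have e : (fun (y : ι → ℝ) x => (starRingEnd ℂ) ((0 : (ι → ℝ) → X3 → ℂ) y x)) = 0 := by
      funext y x
      simp
    rw [e]
    exact Submodule.zero_mem _
  · intro q s hq hs
    have e : (fun (y : ι → ℝ) x => (starRingEnd ℂ) ((q + s) y x)) =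
        (fun y x => (starRingEnd ℂ) (q y x)) + (fun y x => (starRingEnd ℂ) (s y x)) := by
      funext y x
      simp only [Pi.add_apply, map_add]
    rw [e]
    exact Submodule.add_mem _ hq hs
  · intro c q hq
    have e : (fun (y : ι → ℝ) x => (starRingEnd ℂ) ((c • q) y x)) =
        (starRingEnd ℂ) c • (fun y x => (starRingEnd ℂ) (q y x)) := by
      funext y x
      simp only [Pi.smul_apply, smul_eq_mul, map_mul]
    rw [e]
    exact Submodule.smul_mem _ _ hq

theorem coord_mem : ∀ q ∈ SS ι, ∀ i : ι, (fun y x => ((y i : ℝ) : ℂ) * q y x) ∈ SS ι := by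
  intro q hq i
  revert q
  refine ss_ind ?_ ?_ ?_ ?_
  · intro P f hf
    have e : (fun (y : ι → ℝ) x => ((y i : ℝ) : ℂ) * Gen P f y x) =
        Gen (MvPolynomial.X i * P) f := by
      funext y x
      simp only [Gen, map_mul, MvPolynomial.eval_X]
      ring
    rw [e]
    exact gen_mem _ hf
  · have e : (fun (y : ι → ℝ) x => ((y i : ℝ) : ℂ) * (0 : (ι → ℝ) → X3 → ℂ) y x) = 0 := by
      funext y x
      simp
    rw [e]
    exact Submodule.zero_mem _
  · intro q s hq hs
    have e : (fun (y : ι → ℝ) x => ((y i : ℝ) : ℂ) * (q + s) y x) =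
        (fun y x => ((y i : ℝ) : ℂ) * q y x) + (fun y x => ((y i : ℝ) : ℂ) * s y x) := by
      funext y x
      simp only [Pi.add_apply]
      ring
    rw [e]
    exact Submodule.add_mem _ hq hs
  · intro c q hq
    have e : (fun (y : ι → ℝ) x => ((y i : ℝ) : ℂ) * (c • q) y x) =
        c • (fun y x => ((y i : ℝ) : ℂ) * q y x) := by
      funext y x
      simp only [Pi.smul_apply, smul_eq_mul]
      ring
    rw [e]
    exact Submodule.smul_mem _ _ hq

theorem smooth_mem : ∀ q ∈ SS ι, ∀ g : X3 → ℂ, ContDiff ℝ (⊤ : ℕ∞) g →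
    (fun y x => g x * q y x) ∈ SS ι := by
  intro q hq g hg
  revert q
  refine ss_ind ?_ ?_ ?_ ?_
  · intro P f hf
    have e : (fun (y : ι → ℝ) x => g x * Gen P f y x) = Gen P (fun x => g x * f x) := by
      funext y x
      simp only [Gen]
      ring
    rw [e]
    exact gen_mem _ (cs_mul hg hf)
  · have e : (fun (y : ι → ℝ) x => g x * (0 : (ι → ℝ) → X3 → ℂ) y x) = 0 := by
      funext y x
      simp
    rw [e]
    exact Submodule.zero_mem _
  · intro q s hq hs
    have e : (fun (y : ι → ℝ) x => g x * (q + s) y x) =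
        (fun y x => g x * q y x) + (fun y x => g x * s y x) := by
      funext y x
      simp only [Pi.add_apply]
      ring
    rw [e]
    exact Submodule.add_mem _ hq hs
  · intro c q hq
    have e : (fun (y : ι → ℝ) x => g x * (c • q) y x) =
        c • (fun y x => g x * q y x) := by
      funext y x
      simp only [Pi.smul_apply, smul_eq_mul]
      ring
    rw [e]
    exact Submodule.smul_mem _ _ hq

end

theorem scl : SclStmt := by
  intro ι _ _
  exact ⟨mul_mem, conj_mem, coord_mem, smooth_mem⟩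

end Pool.Agent.MBX.H27
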